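import Mathlib

/-!
# Independent sets in the linear complex graph of `PG(3,q)`

For every finite field of order `q` and characteristic `p` and every nondegenerate alternating
form on `K^4` the linear complex graph `G_q` (collinearity graph of `W(3,q)`) has an independent
set of size at least `q √p / √512`.  In particular `α(G_q) ≥ q^{3/2} / √512` for every prime `q`.

Idea: in coordinates adjacency of `[1:x:y:z]` and `[1:x':y':z']` is `z' - z = x' y - x y'`.
A 2-adic recursion with the anisotropic form `x² + xy + y²` over `𝔽₂` gives `8^k` integer triples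
`x, y ∈ [0,2^k)`, `z ∈ [0,4^k)` such that `z' - z ≢ x' y - x y' (mod 4^k)` for distinct triples;
for `2·4^k ≤ p` nothing wraps around modulo `p`.
-/

set_option autoImplicit false

namespace Pool.Agent.Results.MP_f27806_co.PrimeFields

open Finset

/-- the sets of the 2-adic recursion -/
structure Good (k : ℕ) (A : Finset (ℤ × ℤ × ℤ)) : Prop where
  card : A.card = 8 ^ k
  bd : ∀ a ∈ A, 0 ≤ a.1 ∧ a.1 < 2 ^ k ∧ 0 ≤ a.2.1 ∧ a.2.1 < 2 ^ k ∧ 0 ≤ a.2.2 ∧ a.2.2 < 4 ^ k
  sep : ∀ a ∈ A, ∀ b ∈ A,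
    (4 : ℤ) ^ k ∣ (b.2.2 - a.2.2) - (b.1 * a.2.1 - a.1 * b.2.1) → a = b

/-- unreduced third coordinate -/
def raw (d : ℤ × ℤ × ℤ) (a : ℤ × ℤ × ℤ) : ℤ :=
  d.1 ^ 2 + d.1 * d.2.1 + d.2.1 ^ 2 + 2 * (d.2.2 + 2 * a.2.2 - d.1 * a.2.1 + d.2.1 * a.1)

def step (k : ℕ) (t : (ℤ × ℤ × ℤ) × (ℤ × ℤ × ℤ)) : ℤ × ℤ × ℤ :=
  (t.1.1 + 2 * t.2.1, t.1.2.1 + 2 * t.2.2.1, raw t.1 t.2 % 4 ^ (k + 1))

def digits : Finset (ℤ × ℤ × ℤ) := ({0, 1} : Finset ℤ) ×ˢ (({0, 1} : Finset ℤ) ×ˢ ({0, 1} : Finset ℤ))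

lemma digits_card : digits.card = 8 := by decide

lemma mem_digits {d : ℤ × ℤ × ℤ} (h : d ∈ digits) :
    (d.1 = 0 ∨ d.1 = 1) ∧ (d.2.1 = 0 ∨ d.2.1 = 1) ∧ (d.2.2 = 0 ∨ d.2.2 = 1) := by
  simp only [digits, mem_product, mem_insert, mem_singleton] at h
  exact h

lemma key (k : ℕ) (A : Finset (ℤ × ℤ × ℤ)) (hA : Good k A) (d e : ℤ × ℤ × ℤ)
    (hd : d ∈ digits) (he : e ∈ digits) (a b : ℤ × ℤ × ℤ) (ha : a ∈ A) (hb : b ∈ A)
    (h : (4 : ℤ) ^ (k + 1) ∣ ((step k (e, b)).2.2 - (step k (d, a)).2.2)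
      - ((step k (e, b)).1 * (step k (d, a)).2.1 - (step k (d, a)).1 * (step k (e, b)).2.1)) :
    (d, a) = (e, b) := by
  -- pass to the unreduced coordinates
  have h1 : (4 : ℤ) ^ (k + 1) ∣ (raw e b - raw d a)
      - ((e.1 + 2 * b.1) * (d.2.1 + 2 * a.2.1) - (d.1 + 2 * a.1) * (e.2.1 + 2 * b.2.1)) := by
    have h2 : (4 : ℤ) ^ (k + 1) ∣ raw e b - raw e b % 4 ^ (k + 1) := Int.dvd_self_sub_emod
    have h3 : (4 : ℤ) ^ (k + 1) ∣ raw d a - raw d a % 4 ^ (k + 1) := Int.dvd_self_sub_emod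
    have h4 := dvd_add h (dvd_sub h2 h3)
    simp only [step] at h4
    have e1 : raw e b - raw d a
      - ((e.1 + 2 * b.1) * (d.2.1 + 2 * a.2.1) - (d.1 + 2 * a.1) * (e.2.1 + 2 * b.2.1))
      = raw e b % 4 ^ (k + 1) - raw d a % 4 ^ (k + 1)
        - ((e.1 + 2 * b.1) * (d.2.1 + 2 * a.2.1) - (d.1 + 2 * a.1) * (e.2.1 + 2 * b.2.1))
        + (raw e b - raw e b % 4 ^ (k + 1) - (raw d a - raw d a % 4 ^ (k + 1))) := by ring
    rw [e1]
    exact h4
  obtain ⟨hd1, hd2, hd3⟩ := mem_digits hd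
  obtain ⟨he1, he2, he3⟩ := mem_digits he
  obtain ⟨x, y, c⟩ := d
  obtain ⟨x', y', c'⟩ := e
  obtain ⟨s, t, r⟩ := a
  obtain ⟨s', t', r'⟩ := b
  simp only [raw] at h1 hd1 hd2 hd3 he1 he2 he3
  have h4 : (4 : ℤ) ∣ 4 ^ (k + 1) := dvd_pow_self 4 (Nat.succ_ne_zero k)
  -- parity
  have hpar : (2 : ℤ) ∣ (x' ^ 2 + x' * y' + y' ^ 2) - (x ^ 2 + x * y + y ^ 2)
      - (x' * y - x * y') := by
    obtain ⟨m, hm⟩ := ((by norm_num : (2 : ℤ) ∣ 4).trans h4).trans h1
    exact ⟨m - ((c' + 2 * r' - x' * t' + y' * s')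
      - (c + 2 * r - x * t + y * s) - (x' * t + s' * y + 2 * s' * t - x * t' - s * y' - 2 * s * t')),
      by linear_combination hm⟩
  have hxy : x = x' ∧ y = y' := by
    rcases hd1 with rfl | rfl <;> rcases hd2 with rfl | rfl <;> rcases he1 with rfl | rfl <;>
      rcases he2 with rfl | rfl <;> first | exact ⟨rfl, rfl⟩ | (exfalso; revert hpar; norm_num)
  obtain ⟨rfl, rfl⟩ := hxy
  have h7 : (4 : ℤ) ^ (k + 1) ∣ 2 * (c' - c) + 4 * ((r' - r) - (s' * t - s * t')) := by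
    convert h1 using 1
    ring
  have h8 : c = c' := by
    have h9 : (4 : ℤ) ∣ 2 * (c' - c) := by
      have := h4.trans h7
      exact (Int.dvd_add_left (Dvd.intro _ rfl)).mp this
    omega
  subst h8
  have h10 : (4 : ℤ) ^ k ∣ (r' - r) - (s' * t - s * t') := by
    have h11 : (4 : ℤ) * 4 ^ k ∣ 4 * ((r' - r) - (s' * t - s * t')) := by
      have : (4 : ℤ) * 4 ^ k = 4 ^ (k + 1) := by ring
      rw [this]
      simpa using h7
    exact Int.dvd_of_mul_dvd_mul_left (by norm_num) h11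
  have h12 := hA.sep (s, t, r) ha (s', t', r') hb h10
  rw [h12]

lemma exists_good (k : ℕ) : ∃ A : Finset (ℤ × ℤ × ℤ), Good k A := by
  induction k with
  | zero =>
    refine ⟨{(0, 0, 0)}, by simp, ?_, ?_⟩
    · intro a ha
      rw [mem_singleton] at ha
      subst ha
      norm_num
    · intro a ha b hb _
      rw [mem_singleton] at ha hb
      rw [ha, hb]
  | succ k ih =>
    obtain ⟨A, hA⟩ := ih
    have hinj : Set.InjOn (step k) (digits ×ˢ A : Finset _) := by
      rintro ⟨d, a⟩ hda ⟨e, b⟩ heb h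
      simp only [coe_product, Set.mem_prod, mem_coe] at hda heb
      refine key k A hA d e hda.1 heb.1 a b hda.2 heb.2 ?_
      rw [h]
      simp
    refine ⟨(digits ×ˢ A).image (step k), ?_, ?_, ?_⟩
    · rw [card_image_of_injOn hinj, card_product, digits_card, hA.card]
      ring
    · intro w hw
      rw [mem_image] at hw
      obtain ⟨⟨d, a⟩, hda, rfl⟩ := hw
      rw [mem_product] at hda
      obtain ⟨hd1, hd2, hd3⟩ := mem_digits hda.1
      obtain ⟨b1, b2, b3, b4, b5, b6⟩ := hA.bd a hda.2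
      have e1 : (2 : ℤ) ^ (k + 1) = 2 * 2 ^ k := by ring
      have hpos : (0 : ℤ) < 4 ^ (k + 1) := by positivity
      simp only [step]
      simp only at hd1 hd2
      refine ⟨?_, ?_, ?_, ?_, Int.emod_nonneg _ hpos.ne', Int.emod_lt_of_pos _ hpos⟩ <;>
        (try rw [e1]) <;> omega
    · intro v hv w hw h
      rw [mem_image] at hv hw
      obtain ⟨⟨d, a⟩, hda, rfl⟩ := hv
      obtain ⟨⟨e, b⟩, heb, rfl⟩ := hw
      rw [mem_product] at hda heb
      rw [key k A hA d e hda.1 heb.1 a b hda.2 heb.2 h]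

/-! ### the geometry -/

section Geometry

variable {K : Type} [Field K]

/-- A nondegenerate alternating bilinear form on `K^4`. -/
structure SympForm (K : Type) [Field K] where
  /-- the form -/
  f : (Fin 4 → K) →ₗ[K] (Fin 4 → K) →ₗ[K] K
  alt : ∀ v, f v v = 0
  nondeg : ∀ u, (∀ v, f u v = 0) → u = 0

/-- A subspace of `K^4` is totally isotropic. -/
def Isotropic (ω : SympForm K) (W : Submodule K (Fin 4 → K)) : Prop :=
  ∀ u ∈ W, ∀ v ∈ W, ω.f u v = 0

/-- The linear complex graph `G_q` of a nondegenerate alternating form on `K^4`: the vertices are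
the points of `PG(3,K)`, two distinct points are adjacent iff the line through them is totally
isotropic (i.e. belongs to the linear complex). -/
def G (ω : SympForm K) : SimpleGraph (Projectivization K (Fin 4 → K)) where
  Adj P Q := P ≠ Q ∧ Isotropic ω (P.submodule ⊔ Q.submodule)
  symm := ⟨fun P Q h => ⟨h.1.symm, by rw [sup_comm]; exact h.2⟩⟩
  loopless := ⟨fun P h => h.1 rfl⟩

/-- the independence number `α(G_q)` -/
noncomputable def alpha (ω : SympForm K) : ℕ := (G ω).indepNum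

/-- part of a symplectic basis -/
lemma exists_frame (f : (Fin 4 → K) →ₗ[K] (Fin 4 → K) →ₗ[K] K) (halt : ∀ v, f v v = 0)
    (hnd : ∀ u, (∀ v, f u v = 0) → u = 0) :
    ∃ e0 e1 e2 e3 : Fin 4 → K, f e0 e3 = 1 ∧ f e1 e2 = 1 ∧ f e0 e1 = 0 ∧ f e0 e2 = 0 ∧
      f e3 e1 = 0 ∧ f e3 e2 = 0 := by
  have hskew : ∀ u v, f v u = - f u v := by
    intro u v
    have h := halt (u + v)
    simp only [map_add, LinearMap.add_apply, halt, zero_add, add_zero] at h
    linear_combination h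
  have hex : ∀ u : Fin 4 → K, u ≠ 0 → ∃ v, f u v = 1 := by
    intro u hu
    by_contra hcon
    push Not at hcon
    apply hu
    apply hnd
    intro v
    by_contra hv
    apply hcon ((f u v)⁻¹ • v)
    rw [map_smul, smul_eq_mul, inv_mul_cancel₀ hv]
  obtain ⟨e0, he0⟩ : ∃ e0 : Fin 4 → K, e0 ≠ 0 := exists_ne 0
  obtain ⟨e3, h03⟩ := hex e0 he0
  -- a nonzero vector orthogonal to both
  obtain ⟨e1, he1, h1⟩ : ∃ e1 : Fin 4 → K, e1 ≠ 0 ∧ (f e0 e1 = 0 ∧ f e3 e1 = 0) := by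
    let L : (Fin 4 → K) →ₗ[K] K × K := (f e0).prod (f e3)
    have hker : LinearMap.ker L ≠ ⊥ := by
      intro hbot
      have hinj := LinearMap.ker_eq_bot.mp hbot
      have := LinearMap.finrank_le_finrank_of_injective hinj
      simp at this
    obtain ⟨w, hw, hw0⟩ := (Submodule.ne_bot_iff _).mp hker
    refine ⟨w, hw0, ?_⟩
    rw [LinearMap.mem_ker] at hw
    have := Prod.ext_iff.mp hw
    exact ⟨this.1, this.2⟩
  obtain ⟨v, hv⟩ := hex e1 he1
  refine ⟨e0, e1, v - f e0 v • e3 + f e3 v • e0, e3, h03, ?_, h1.1, ?_, h1.2, ?_⟩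
  · simp only [map_add, map_sub, map_smul, smul_eq_mul]
    rw [hv, hskew e3 e1, hskew e0 e1, h1.1, h1.2]
    ring
  · simp only [map_add, map_sub, map_smul, smul_eq_mul]
    rw [h03, halt]
    ring
  · simp only [map_add, map_sub, map_smul, smul_eq_mul]
    rw [halt, hskew e0 e3, h03]
    ring

/-- The lower bound for all finite fields. -/
lemma main (K : Type) [Field K] [Fintype K] (p : ℕ) (hp : p.Prime) [CharP K p]
    (ω : SympForm K) : (Fintype.card K) ^ 2 * p ≤ 512 * (G ω).indepNum ^ 2 := by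
  classical
  obtain ⟨f, halt, hnd⟩ := ω
  have : Fact p.Prime := ⟨hp⟩
  obtain ⟨e0, e1, e2, e3, h03, h12, h01, h02, h31, h32⟩ := exists_frame f halt hnd
  have hskew : ∀ u v, f v u = - f u v := by
    intro u v
    have h := halt (u + v)
    simp only [map_add, LinearMap.add_apply, halt, zero_add, add_zero] at h
    linear_combination h
  -- the scale
  set k := Nat.log 4 (p / 2) with hk
  have hp2 := hp.two_le
  have hk1 : 2 * 4 ^ k ≤ p := by
    have := Nat.pow_log_le_self 4 (x := p / 2) (by omega)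
    rw [← hk] at this
    omega
  have hk2 : p < 2 * 4 ^ (k + 1) := by
    have := Nat.lt_pow_succ_log_self (b := 4) (by norm_num) (p / 2)
    rw [← hk] at this
    omega
  obtain ⟨A, hA⟩ := exists_good k
  -- representatives modulo the prime field
  set P0 : AddSubgroup K := AddSubgroup.zmultiples (1 : K) with hP0
  have hord : addOrderOf (1 : K) = p :=
    CharP.eq K (CharP.addOrderOf_one K) inferInstance
  have hcardP0 : Nat.card P0 = p := by
    rw [hP0, Nat.card_zmultiples, hord]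
  have hmul : p * P0.index = Fintype.card K := by
    rw [← hcardP0, P0.card_mul_index, Nat.card_eq_fintype_card]
  let _ : Fintype (K ⧸ P0) := Fintype.ofFinite _
  have hidx : Fintype.card (K ⧸ P0) = P0.index := by
    rw [AddSubgroup.index, Nat.card_eq_fintype_card]
  -- the points
  let vec : (ℤ × ℤ × ℤ) × (K ⧸ P0) → (Fin 4 → K) := fun t =>
    e0 + (t.1.1 : K) • e1 + (t.1.2.1 : K) • e2 + ((t.1.2.2 : K) + t.2.out) • e3
  have hf : ∀ s t, f (vec s) (vec t) =
      (((t.1.2.2 - s.1.2.2) - (t.1.1 * s.1.2.1 - s.1.1 * t.1.2.1) : ℤ) : K)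
        + (t.2.out - s.2.out) := by
    intro s t
    simp only [vec, map_add, map_smul, LinearMap.add_apply, LinearMap.smul_apply, smul_eq_mul,
      halt, h03, h12, h01, h02, h31, h32, hskew e0 e1, hskew e0 e2, hskew e0 e3, hskew e1 e2,
      hskew e3 e1, hskew e3 e2]
    push_cast
    ring
  have hne : ∀ s, vec s ≠ 0 := by
    intro s h0
    have h1 : f (vec s) e3 = 1 := by
      simp only [vec, map_add, map_smul, LinearMap.add_apply, LinearMap.smul_apply, smul_eq_mul,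
        halt, h03, hskew e3 e1, hskew e3 e2, h31, h32]
      ring
    rw [h0, map_zero, LinearMap.zero_apply] at h1
    exact zero_ne_one h1
  -- the separation property
  have hsep : ∀ s t : (ℤ × ℤ × ℤ) × (K ⧸ P0), s.1 ∈ A → t.1 ∈ A → f (vec s) (vec t) = 0 →
      s = t := by
    intro s t hs ht h
    rw [hf] at h
    have h2 : s.2 = t.2 := by
      have : (t.2.out - s.2.out : K) ∈ P0 := by
        refine AddSubgroup.mem_zmultiples_iff.mpr ⟨-((t.1.2.2 - s.1.2.2) - (t.1.1 * s.1.2.1 - s.1.1 * t.1.2.1)), ?_⟩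
        rw [zsmul_eq_mul, mul_one, Int.cast_neg]
        linear_combination -h
      have h3 : (QuotientAddGroup.mk s.2.out : K ⧸ P0) = QuotientAddGroup.mk t.2.out := by
        rw [QuotientAddGroup.eq]
        rwa [neg_add_eq_sub]
      simpa using h3
    rw [h2, sub_self, add_zero, CharP.intCast_eq_zero_iff K p] at h
    obtain ⟨a1, a2, a3, a4, a5, a6⟩ := hA.bd _ hs
    obtain ⟨b1, b2, b3, b4, b5, b6⟩ := hA.bd _ ht
    have h22 : (2 : ℤ) ^ k * 2 ^ k = 4 ^ k := by
      rw [← mul_pow]; norm_num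
    have c1 : t.1.1 * s.1.2.1 < 4 ^ k := by
      rw [← h22]; exact mul_lt_mul'' b2 a4 b1 a3
    have c2 : s.1.1 * t.1.2.1 < 4 ^ k := by
      rw [← h22]; exact mul_lt_mul'' a2 b4 a1 b3
    have c3 : 0 ≤ t.1.1 * s.1.2.1 := mul_nonneg b1 a3
    have c4 : 0 ≤ s.1.1 * t.1.2.1 := mul_nonneg a1 b3
    have hk1' : (2 : ℤ) * 4 ^ k ≤ p := by exact_mod_cast hk1
    have h0 : (t.1.2.2 - s.1.2.2) - (t.1.1 * s.1.2.1 - s.1.1 * t.1.2.1) = 0 := by
      apply Int.eq_zero_of_abs_lt_dvd h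
      rw [abs_lt]
      constructor <;> linarith
    have h4 := hA.sep _ hs _ ht (by rw [h0]; exact dvd_zero _)
    exact Prod.ext h4 h2
  -- the independent set
  let pt : (ℤ × ℤ × ℤ) × (K ⧸ P0) → Projectivization K (Fin 4 → K) := fun t =>
    Projectivization.mk K (vec t) (hne t)
  have hmem : ∀ t, vec t ∈ (pt t).submodule := by
    intro t
    rw [Projectivization.submodule_mk]
    exact Submodule.mem_span_singleton_self _
  let I : Finset ((ℤ × ℤ × ℤ) × (K ⧸ P0)) := A ×ˢ Finset.univ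
  have hinj : Set.InjOn pt I := by
    intro s hs t ht hst
    have hs1 : s.1 ∈ A := by simpa [I] using hs
    have ht1 : t.1 ∈ A := by simpa [I] using ht
    apply hsep s t hs1 ht1
    have h1 : vec s ∈ (pt t).submodule := by rw [← hst]; exact hmem s
    rw [Projectivization.submodule_mk, Submodule.mem_span_singleton] at h1
    obtain ⟨c, hc⟩ := h1
    rw [← hc, map_smul, LinearMap.smul_apply, halt, smul_zero]
  have hind : (G ⟨f, halt, hnd⟩).IsIndepSet ((I.image pt : Finset _) : Set (Projectivization K (Fin 4 → K))) := by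
    intro P hP Q hQ hPQ hadj
    rw [mem_coe, mem_image] at hP hQ
    obtain ⟨s, hs, rfl⟩ := hP
    obtain ⟨t, ht, rfl⟩ := hQ
    have hs1 : s.1 ∈ A := by simpa [I] using hs
    have ht1 : t.1 ∈ A := by simpa [I] using ht
    have h0 : f (vec s) (vec t) = 0 :=
      hadj.2 _ (Submodule.mem_sup_left (hmem s)) _ (Submodule.mem_sup_right (hmem t))
    exact hPQ (by rw [hsep s t hs1 ht1 h0])
  let _ : Fintype (Projectivization K (Fin 4 → K)) := Fintype.ofFinite _
  have hcard : 8 ^ k * P0.index ≤ (G ⟨f, halt, hnd⟩).indepNum := by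
    have h1 := SimpleGraph.IsIndepSet.card_le_indepNum hind
    rw [card_image_of_injOn hinj, card_product, hA.card, card_univ, hidx] at h1
    exact h1
  calc (Fintype.card K) ^ 2 * p = p ^ 3 * P0.index ^ 2 := by rw [← hmul]; ring
    _ ≤ (2 * 4 ^ (k + 1)) ^ 3 * P0.index ^ 2 := by gcongr
    _ = 512 * (8 ^ k * P0.index) ^ 2 := by
        have : (4 ^ k) ^ 3 = (8 ^ k) ^ 2 := by
          rw [← pow_mul, ← pow_mul, mul_comm k 3, mul_comm k 2, pow_mul, pow_mul]
          norm_num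
        rw [pow_succ 4 k]
        calc (2 * (4 ^ k * 4)) ^ 3 * P0.index ^ 2 = 512 * ((4 ^ k) ^ 3 * P0.index ^ 2) := by ring
          _ = 512 * (8 ^ k * P0.index) ^ 2 := by rw [this]; ring
    _ ≤ 512 * (G ⟨f, halt, hnd⟩).indepNum ^ 2 := by gcongr

end Geometry

/-- **Independent sets of the linear complex graph of `PG(3,q)`.**

* For every finite field `K` of order `q` and characteristic `p` and every nondegenerate
  alternating bilinear form on `K^4`, the linear complex graph satisfies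
  `q^2 p ≤ 512 α(G_q)^2`, i.e. `α(G_q) ≥ q √p / √512`; for prime `q` this reads
  `α(G_q) ≥ q^{3/2} / √512`.
* Hence for every `ε > 0`, `α(G_q) ≥ q^{3/2 - ε}` for all but finitely many primes `q`. -/
theorem result :
    (∀ (K : Type) [Field K] [Fintype K] (p : ℕ), p.Prime → CharP K p → ∀ ω : SympForm K,
      (Fintype.card K) ^ 2 * p ≤ 512 * (alpha ω) ^ 2) ∧
    (∀ ε : ℝ, 0 < ε → ∃ N : ℕ, ∀ q : ℕ, N ≤ q → q.Prime →
      ∀ (K : Type) [Field K] [Fintype K], Fintype.card K = q → ∀ ω : SympForm K,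
        (q : ℝ) ^ ((3 : ℝ) / 2 - ε) ≤ alpha ω) := by
  refine ⟨?_, ?_⟩
  · intro K _ _ p hp hchar ω
    exact main K p hp ω
  · intro ε hε
    have htend : Filter.Tendsto (fun q : ℕ => (q : ℝ) ^ (2 * ε)) Filter.atTop Filter.atTop :=
      (tendsto_rpow_atTop (by positivity)).comp tendsto_natCast_atTop_atTop
    obtain ⟨N, hN⟩ := Filter.eventually_atTop.mp (htend.eventually_ge_atTop 512)
    refine ⟨N, ?_⟩
    intro q hNq hq K _ _ hcard ω
    have hfact : Fact q.Prime := ⟨hq⟩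
    have hchar : CharP K q := charP_of_card_eq_prime hcard
    have h1 : (Fintype.card K) ^ 2 * q ≤ 512 * (alpha ω) ^ 2 := main K q hq ω
    rw [hcard] at h1
    have h2 : (q : ℝ) ^ 3 ≤ 512 * (alpha ω : ℝ) ^ 2 := by
      have : ((q ^ 2 * q : ℕ) : ℝ) ≤ ((512 * (alpha ω) ^ 2 : ℕ) : ℝ) := by exact_mod_cast h1
      push_cast at this
      calc (q : ℝ) ^ 3 = (q : ℝ) ^ 2 * q := by ring
        _ ≤ _ := this
    have hq0 : (0 : ℝ) < q := by exact_mod_cast hq.pos
    have h3 : ((q : ℝ) ^ ((3 : ℝ) / 2 - ε)) ^ 2 * (q : ℝ) ^ (2 * ε) = (q : ℝ) ^ 3 := by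
      rw [← Real.rpow_natCast ((q : ℝ) ^ ((3 : ℝ) / 2 - ε)) 2, ← Real.rpow_mul hq0.le,
        ← Real.rpow_add hq0, ← Real.rpow_natCast (q : ℝ) 3]
      congr 1
      push_cast
      ring
    have h4 : ((q : ℝ) ^ ((3 : ℝ) / 2 - ε)) ^ 2 * 512 ≤ 512 * (alpha ω : ℝ) ^ 2 := by
      calc ((q : ℝ) ^ ((3 : ℝ) / 2 - ε)) ^ 2 * 512
          ≤ ((q : ℝ) ^ ((3 : ℝ) / 2 - ε)) ^ 2 * (q : ℝ) ^ (2 * ε) := by
            gcongr
            exact hN q hNq
        _ = (q : ℝ) ^ 3 := h3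
        _ ≤ _ := h2
    have h5 : ((q : ℝ) ^ ((3 : ℝ) / 2 - ε)) ^ 2 ≤ (alpha ω : ℝ) ^ 2 := by linarith
    exact le_of_sq_le_sq h5 (Nat.cast_nonneg _)

end Pool.Agent.Results.MP_f27806_co.PrimeFields
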